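import Pool.Agent.helper12.DD.Spec

set_option autoImplicit false

open Pool.Agent.helper49.Blk

namespace Pool.Agent.DD

theorem IRP_uniq (A B : Type) [Group A] [Group B] [Finite A] [Finite B] (hF : IRF_stmt)
    (α α' : A → ℂ) (β β' : B → ℂ) (hα : α ∈ Irr A) (hα' : α' ∈ Irr A) (hβ : β ∈ Irr B)
    (hβ' : β' ∈ Irr B) (h : ∀ a b, α a * β b = α' a * β' b) : α = α' := by
  obtain ⟨n, hn, hn'⟩ := ((hF B).2 β hβ).1
  obtain ⟨m, hm, hm'⟩ := ((hF B).2 β' hβ').1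
  have hli := linInd_Irr (G := A)
  have h1 : (n : ℂ) • ((⟨α, hα⟩ : Irr A) : A → ℂ) = (m : ℂ) • ((⟨α', hα'⟩ : Irr A) : A → ℂ) := by
    funext a
    have := h a 1
    rw [hn', hm'] at this
    simp only [Pi.smul_apply, smul_eq_mul]
    rw [mul_comm, this, mul_comm]
  have h2 := hli.eq_of_smul_apply_eq_smul_apply (n : ℂ) (m : ℂ) ⟨α, hα⟩ ⟨α', hα'⟩
    (by exact_mod_cast hn.ne') h1
  exact congrArg Subtype.val h2

theorem IRP (hG : IRG_stmt) (hT : TRI_stmt) (hF : IRF_stmt) : IRP_stmt := by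
  intro A B _ _ _ _ N₁ N₂
  refine ⟨?_, ?_⟩
  · intro ψ
    rw [hT (N₁ × N₂) (N₁.prod N₂) (Subgroup.prodEquiv N₁ N₂).symm ψ, hG N₁ N₂]
    constructor
    · rintro ⟨α, hα, β, hβ, h⟩
      refine ⟨α, hα, β, hβ, ?_⟩
      funext x
      have := congrFun h (Subgroup.prodEquiv N₁ N₂ x)
      simp only [MulEquiv.symm_apply_apply] at this
      rw [this]
      rfl
    · rintro ⟨α, hα, β, hβ, rfl⟩
      exact ⟨α, hα, β, hβ, rfl⟩
  · intro ψ₁ h₁ ψ₁' h₁' ψ₂ h₂ ψ₂' h₂' h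
    have key : ∀ (a : N₁) (b : N₂), ψ₁ a * ψ₂ b = ψ₁' a * ψ₂' b := by
      intro a b
      exact congrFun h ⟨(a.1, b.1), ⟨a.2, b.2⟩⟩
    refine ⟨IRP_uniq N₁ N₂ hF _ _ _ _ h₁ h₁' h₂ h₂' key,
      IRP_uniq N₂ N₁ hF _ _ _ _ h₂ h₂' h₁ h₁' fun b a => ?_⟩
    rw [mul_comm, key, mul_comm]

end Pool.Agent.DD
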